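import Pool.Agent.Lib_helper35.DC.FR
import Pool.Agent.Lib_helper37.DC.PV
import Pool.Agent.Lib_helper37.DC.AL

set_option autoImplicit false

open MeasureTheory Filter Topology

namespace Pool.Agent.DC

section

variable {G X M : Type} [Group G] [MetricSpace X] [MulAction G X] [MetricSpace M]
    [MeasurableSpace M] [BorelSpace M] [MulAction G M]

theorem GE_dist (T : TD G X M) (g h : G) : dist (g • T.o) (h • T.o) = T.len (g⁻¹ * h) := by
  show _ = dist T.o ((g⁻¹ * h) • T.o)
  rw [← T.isom g T.o ((g⁻¹ * h) • T.o), ← mul_smul, mul_inv_cancel_left]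

theorem GE_len_inv (T : TD G X M) (g : G) : T.len g⁻¹ = T.len g := T.cnt.inv g

theorem GE_len_nonneg (T : TD G X M) (g : G) : 0 ≤ T.len g := dist_nonneg

/-- BLOCK GE. Only short elements of the subgroups are used. -/
theorem GE_main (T : TD G X M) (H K : Subgroup G) (hH : T.NullLim H) (hK : T.NullLim K) (ε : ℝ)
    (hε : 0 < ε) : ∃ t : ℝ, 0 ≤ t ∧ ∀ᶠ r in atTop, (Set.ncard {g : G | T.len g ≤ r ∧
      ∃ a ∈ H, ∃ b ∈ K, T.len (a * g * b) ≤ r ∧ (t < T.len a ∨ t < T.len b)} : ℝ) ≤
        ε * Real.exp (T.h * r) := by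
  haveI : CompactSpace T.P := isCompact_iff_compactSpace.1 T.comp
  obtain ⟨c, hc⟩ := ON_main T H hH (ε / 4) (by positivity)
  obtain ⟨c', hc'⟩ := ON_main T K hK (ε / 4) (by positivity)
  obtain ⟨D', hD⟩ := PV_main T (max c c')
  obtain ⟨s, hs, hsh⟩ := AL_shift T.cnt (ε / 4) (by positivity)
  have hc2 := AL_inv T.cnt hc'
  have hU := AL_union T.cnt (AL_union T.cnt hc hc2) (hD (ε / 4) (by positivity))
  refine ⟨max 0 (s + D'), le_max_left _ _, ?_⟩
  filter_upwards [hU, hsh] with r h1 h2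
  set A : Set G := {g | ∃ h ∈ H, T.len (h * g) < T.len h + T.len g - c} ∪
    {g | g⁻¹ ∈ {g | ∃ h ∈ K, T.len (h * g) < T.len h + T.len g - c'}} ∪
    {g | ¬ ∀ x y : X,
    dist x T.o + T.len g - max c c' ≤ dist x (g • T.o) →
      dist y (g • T.o) + T.len g - max c c' ≤ dist y T.o →
      dist x T.o + T.len g + dist (g • T.o) y - D' ≤ dist x y} with hA
  have hsub : {g : G | T.len g ≤ r ∧
      ∃ a ∈ H, ∃ b ∈ K, T.len (a * g * b) ≤ r ∧
        (max 0 (s + D') < T.len a ∨ max 0 (s + D') < T.len b)} ⊆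
      {g | g ∈ A ∧ T.cnt.len g ≤ r} ∪ {g : G | T.cnt.len g ≤ r - s} := by
    rintro g ⟨hg, a, ha, b, hb, hab, ht⟩
    by_cases hgA : g ∈ A
    · exact Or.inl ⟨hgA, hg⟩
    · right
      show T.len g ≤ r - s
      by_contra hlt
      have hlt : r - s < T.len g := not_le.1 hlt
      have n1 : ¬ ∃ h ∈ H, T.len (h * g) < T.len h + T.len g - c := fun h =>
        hgA (Or.inl (Or.inl h))
      have n2 : ¬ ∃ h ∈ K, T.len (h * g⁻¹) < T.len h + T.len g⁻¹ - c' := fun h =>
        hgA (Or.inl (Or.inr h))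
      have n3 : ∀ x y : X, dist x T.o + T.len g - max c c' ≤ dist x (g • T.o) →
          dist y (g • T.o) + T.len g - max c c' ≤ dist y T.o →
          dist x T.o + T.len g + dist (g • T.o) y - D' ≤ dist x y := by
        by_contra h
        exact hgA (Or.inr h)
      have e1 : dist (a⁻¹ • T.o) T.o = T.len a := by
        have := GE_dist T a⁻¹ 1
        rwa [one_smul, inv_inv, mul_one] at this
      have e2 : dist (a⁻¹ • T.o) (g • T.o) = T.len (a * g) := by
        have := GE_dist T a⁻¹ g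
        rwa [inv_inv] at this
      have e3 : dist ((g * b) • T.o) (g • T.o) = T.len b := by
        have := GE_dist T (g * b) g
        rw [this, ← GE_len_inv T b]
        congr 1
        group
      have e4 : dist ((g * b) • T.o) T.o = T.len (g * b) := by
        rw [dist_comm]; rfl
      have e5 : dist (a⁻¹ • T.o) ((g * b) • T.o) = T.len (a * g * b) := by
        have := GE_dist T a⁻¹ (g * b)
        rwa [inv_inv, ← mul_assoc] at this
      have m1 : T.len a + T.len g - c ≤ T.len (a * g) := by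
        by_contra h
        exact n1 ⟨a, ha, not_le.1 h⟩
      have m2 : T.len b + T.len g - c' ≤ T.len (g * b) := by
        by_contra h
        refine n2 ⟨b⁻¹, K.inv_mem hb, ?_⟩
        have e6 : T.len (b⁻¹ * g⁻¹) = T.len (g * b) := by
          rw [← GE_len_inv T (g * b), mul_inv_rev]
        rw [e6, GE_len_inv, GE_len_inv]
        exact not_le.1 h
      have m3 := n3 (a⁻¹ • T.o) ((g * b) • T.o)
        (by rw [e1, e2]; linarith [le_max_left c c'])
        (by rw [e3, e4]; linarith [le_max_right c c'])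
      rw [e1, e5, dist_comm (g • T.o), e3] at m3
      have p1 := GE_len_nonneg T a
      have p2 := GE_len_nonneg T b
      have q := le_max_right (0 : ℝ) (s + D')
      rcases ht with h | h <;> linarith
  have f1 : {g | g ∈ A ∧ T.cnt.len g ≤ r}.Finite := (T.cnt.fin r).subset fun g hg => hg.2
  have f2 : {g : G | T.cnt.len g ≤ r - s}.Finite := T.cnt.fin (r - s)
  have h3 : (Set.ncard {g : G | T.len g ≤ r ∧
      ∃ a ∈ H, ∃ b ∈ K, T.len (a * g * b) ≤ r ∧
        (max 0 (s + D') < T.len a ∨ max 0 (s + D') < T.len b)} : ℝ) ≤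
      (Set.ncard {g | g ∈ A ∧ T.cnt.len g ≤ r} : ℝ) +
        (Set.ncard {g : G | T.cnt.len g ≤ r - s} : ℝ) := by
    have := (Set.ncard_le_ncard hsub (f1.union f2)).trans (Set.ncard_union_le _ _)
    exact_mod_cast this
  have h1' : (Set.ncard {g | g ∈ A ∧ T.cnt.len g ≤ r} : ℝ) ≤
      (ε / 4 + ε / 4 + ε / 4) * Real.exp (T.h * r) := h1
  have h2' : (Set.ncard {g : G | T.cnt.len g ≤ r - s} : ℝ) ≤
      (ε / 4) * Real.exp (T.h * r) := h2
  refine h3.trans ?_
  calc _ ≤ (ε / 4 + ε / 4 + ε / 4) * Real.exp (T.h * r) + (ε / 4) * Real.exp (T.h * r) :=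
        add_le_add h1' h2'
    _ = ε * Real.exp (T.h * r) := by ring

end

end Pool.Agent.DC
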