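import Pool.Agent.Lib_helper37.DC.CQ

set_option autoImplicit false

open MeasureTheory Filter Topology

namespace Pool.Agent.DC

section

variable {G P : Type} [Group G] [MetricSpace P] [MeasurableSpace P] [BorelSpace P] [CompactSpace P]

/-- BLOCK SQ. The sum of the inverses of the numbers of the conditions which hold. -/
theorem SQ_main (D : Cnt G P) {ι : Type} [Finite ι] (l : ι → G → ℝ) (m : ι → P × P → ℝ)
    (hm : ∀ j, Continuous (m j)) (i0 : ι) (h0 : ∀ g, l i0 g = D.len g)
    (hl : ∀ j, ∀ δ > 0, D.Negl {g | δ ≤ |l j g - D.len g - m j (D.pi g, D.pi g⁻¹)|}) :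
    ∃ L : ℝ, Tendsto (fun r => Real.exp (-(D.h * r)) *
      ∑ g ∈ (D.fin r).toFinset, 1 / (Set.ncard {j | l j g ≤ r} : ℝ)) atTop (𝓝 L) := by
  classical
  haveI := Fintype.ofFinite ι
  set Sg : ℝ → G → Finset ι := fun r g => Finset.univ.filter (fun j => l j g ≤ r) with hSg
  set E : Finset ι → ℝ → ℝ := fun T r =>
    (((D.fin r).toFinset.filter (fun g => Sg r g = T)).card : ℝ) with hE
  have memB : ∀ (r : ℝ) (g : G), g ∈ (D.fin r).toFinset ↔ D.len g ≤ r := fun r g => by simp
  have key : ∀ n, ∀ S : Finset ι, i0 ∈ S → Fintype.card ι - S.card = n →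
      ∃ L, Tendsto (fun r => Real.exp (-(D.h * r)) * E S r) atTop (𝓝 L) := by
    intro n
    induction n using Nat.strong_induction_on with
    | _ n ih =>
      intro S hS hn
      -- the count of the supersets
      obtain ⟨L0, hL0⟩ := CQ_main D (ι := {j // j ∈ S}) (fun j => l j.1) (fun j => m j.1)
        (fun j => hm j.1) ⟨i0, hS⟩ h0 (fun j => hl j.1)
      have hbig : ∀ T : Finset ι, S ⊂ T →
          ∃ L, Tendsto (fun r => Real.exp (-(D.h * r)) * E T r) atTop (𝓝 L) := by
        intro T hT
        have h1 : S.card < T.card := Finset.card_lt_card hT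
        have h2 : T.card ≤ Fintype.card ι := Finset.card_le_univ T
        exact ih (Fintype.card ι - T.card) (by omega) T (hT.1 hS) rfl
      choose! L hL using hbig
      have hcount : ∀ r, (Set.ncard {g : G | ∀ j : {j // j ∈ S}, l j.1 g ≤ r} : ℝ) =
          ∑ T ∈ Finset.univ.filter (fun T => S ⊆ T), E T r := by
        intro r
        have h1 : {g : G | ∀ j : {j // j ∈ S}, l j.1 g ≤ r} =
            (((D.fin r).toFinset.filter (fun g => S ⊆ Sg r g) : Finset G) : Set G) := by
          ext g
          simp only [Set.mem_ofPred_eq, Finset.coe_filter, memB, hSg]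
          constructor
          · intro h
            refine ⟨?_, fun j hj => ?_⟩
            · rw [← h0]; exact h ⟨i0, hS⟩
            · simpa using h ⟨j, hj⟩
          · rintro ⟨_, h⟩ j
            simpa using h j.2
        rw [h1, Set.ncard_coe_finset]
        rw [Finset.card_eq_sum_card_fiberwise (f := Sg r)
          (t := Finset.univ.filter (fun T => S ⊆ T)) (fun g hg => by
            simp only [Finset.coe_filter, Set.mem_ofPred_eq] at hg ⊢
            exact ⟨Finset.mem_univ _, hg.2⟩)]
        push_cast
        refine Finset.sum_congr rfl fun T hT => ?_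
        simp only [hE]
        congr 2
        ext g
        simp only [Finset.mem_filter, memB]
        constructor
        · rintro ⟨⟨h2, _⟩, h3⟩
          exact ⟨h2, h3⟩
        · rintro ⟨h2, h3⟩
          refine ⟨⟨h2, ?_⟩, h3⟩
          rw [h3]
          exact (Finset.mem_filter.1 hT).2
      have hsplit : ∀ r, E S r = (Set.ncard {g : G | ∀ j : {j // j ∈ S}, l j.1 g ≤ r} : ℝ) -
          ∑ T ∈ Finset.univ.filter (fun T => S ⊂ T), E T r := by
        intro r
        rw [hcount r]
        have h1 : Finset.univ.filter (fun T => S ⊆ T) =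
            insert S (Finset.univ.filter (fun T => S ⊂ T)) := by
          ext T
          simp only [Finset.mem_filter, Finset.mem_univ, true_and, Finset.mem_insert]
          rw [Finset.ssubset_iff_subset_ne]
          constructor
          · intro h
            by_cases hTS : T = S
            · exact Or.inl hTS
            · exact Or.inr ⟨h, fun h' => hTS h'.symm⟩
          · rintro (h | h)
            · rw [h]
            · exact h.1
        rw [h1, Finset.sum_insert (by simp)]
        ring
      refine ⟨L0 - ∑ T ∈ Finset.univ.filter (fun T => S ⊂ T), L T, ?_⟩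
      have h2 : (fun r => Real.exp (-(D.h * r)) * E S r) = fun r =>
          Real.exp (-(D.h * r)) *
            (Set.ncard {g : G | ∀ j : {j // j ∈ S}, l j.1 g ≤ r} : ℝ) -
          ∑ T ∈ Finset.univ.filter (fun T => S ⊂ T), Real.exp (-(D.h * r)) * E T r := by
        funext r
        rw [hsplit r, mul_sub, Finset.mul_sum]
      rw [h2]
      refine hL0.sub (tendsto_finsetSum _ fun T hT => hL T (Finset.mem_filter.1 hT).2)
  have all : ∀ T : Finset ι,
      ∃ L, Tendsto (fun r => Real.exp (-(D.h * r)) * E T r) atTop (𝓝 L) := by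
    intro T
    by_cases hT : i0 ∈ T
    · exact key _ T hT rfl
    · refine ⟨0, ?_⟩
      have : (fun r => Real.exp (-(D.h * r)) * E T r) = fun _ => (0 : ℝ) := by
        funext r
        have : ((D.fin r).toFinset.filter (fun g => Sg r g = T)) = ∅ := by
          refine Finset.filter_eq_empty_iff.2 fun {g} hg h => hT ?_
          rw [← h]
          simp only [hSg, Finset.mem_filter, Finset.mem_univ, true_and]
          rw [h0]
          exact (memB r g).1 hg
        simp [hE, this]
      rw [this]
      exact tendsto_const_nhds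
  choose L hL using all
  refine ⟨∑ T : Finset ι, L T * (1 / (T.card : ℝ)), ?_⟩
  have hsum : (fun r => Real.exp (-(D.h * r)) *
      ∑ g ∈ (D.fin r).toFinset, 1 / (Set.ncard {j | l j g ≤ r} : ℝ)) = fun r =>
      ∑ T : Finset ι, (Real.exp (-(D.h * r)) * E T r) * (1 / (T.card : ℝ)) := by
    funext r
    have h1 : ∑ g ∈ (D.fin r).toFinset, 1 / (Set.ncard {j | l j g ≤ r} : ℝ) =
        ∑ T : Finset ι, ∑ g ∈ (D.fin r).toFinset.filter (fun g => Sg r g = T),
          1 / (Set.ncard {j | l j g ≤ r} : ℝ) :=
      (Finset.sum_fiberwise_of_maps_to (fun g _ => Finset.mem_univ (Sg r g)) _).symm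
    rw [h1, Finset.mul_sum]
    refine Finset.sum_congr rfl fun T _ => ?_
    have h2 : ∀ g ∈ (D.fin r).toFinset.filter (fun g => Sg r g = T),
        1 / (Set.ncard {j | l j g ≤ r} : ℝ) = 1 / (T.card : ℝ) := by
      intro g hg
      have h3 : {j | l j g ≤ r} = ((Sg r g : Finset ι) : Set ι) := by
        ext j; simp [hSg]
      rw [h3, Set.ncard_coe_finset, (Finset.mem_filter.1 hg).2]
    rw [Finset.sum_congr rfl h2, Finset.sum_const, nsmul_eq_mul]
    simp only [hE]
    ring
  rw [hsum]
  exact tendsto_finsetSum _ fun T _ => (hL T).mul_const _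

end

end Pool.Agent.DC
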